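import Pool.Agent.Helper80.Stack.Goals

/-! Packet BFS -/

set_option autoImplicit false

namespace Pool.Agent.Helper31.Stk

open Classical Pool.Agent.Helper80.Stk

/-- reachable in exactly `n` steps -/
def Rch {V : Type} (E : V → V → Prop) (r : V) : ℕ → V → Prop
  | 0, v => v = r
  | n + 1, v => ∃ w, Rch E r n w ∧ (E v w ∨ E w v)

theorem pf_Bfs : StmtBfs := by
  intro V _ E r hc
  have hT : {v | ∃ n, Rch E r n v} = Set.univ := by
    apply hc
    · exact ⟨r, 0, rfl⟩
    · intro a b hab
      constructor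
      · rintro ⟨n, hn⟩
        exact ⟨n + 1, a, hn, Or.inr hab⟩
      · rintro ⟨n, hn⟩
        exact ⟨n + 1, b, hn, Or.inl hab⟩
  have hall : ∀ v, ∃ n, Rch E r n v := by
    intro v
    have : v ∈ {v | ∃ n, Rch E r n v} := by rw [hT]; trivial
    exact this
  have hle : ∀ v n, Rch E r n v → Nat.find (hall v) ≤ n := fun v n h => Nat.find_min' (hall v) h
  refine ⟨fun v => Nat.find (hall v), ?_, ?_⟩
  · intro v hv
    have h1 := Nat.find_spec (hall v)
    rcases h2 : Nat.find (hall v) with _ | m
    · rw [h2] at h1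
      exact absurd h1 hv
    · rw [h2] at h1
      obtain ⟨w, hw, ha⟩ := h1
      refine ⟨w, ha, ?_⟩
      have := hle w m hw
      show Nat.find (hall w) < Nat.find (hall v)
      omega
  · intro a b hab
    have ha := Nat.find_spec (hall a)
    have hb := Nat.find_spec (hall b)
    exact ⟨hle a _ ⟨b, hb, Or.inl hab⟩, hle b _ ⟨a, ha, Or.inr hab⟩⟩

end Pool.Agent.Helper31.Stk
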